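import Pool.Agent.Helper79.GT.St3
import Pool.Agent.Helper19.SK.Basic

/-! Project GT, module GRM -/

set_option autoImplicit false

namespace Pool.Agent.Helper2.GT

open Pool.Agent.Helper19.SK Pool.Agent.Helper79.GS Pool.Agent.Helper79.GT

/-- module GRM -/
theorem hGRM : Pool.Agent.Helper79.GT.StGRM := by
  intro V _ G c P e he
  have hcard : ∀ S : Set V, S.ncard ≤ Nat.card V := fun S => by
    rw [← Set.ncard_univ]
    exact Set.ncard_le_ncard (Set.subset_univ S) (Set.toFinite _)
  have hQ : ∀ v d, play G P c e v = some d → put P e (some c) v = some d :=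
    fun v d h => clear_some (clear_some h)
  have hne : e ∉ {v | P v = some c} := by
    intro h
    have h1 : P e = some c := h
    rw [he] at h1
    cases h1
  have hins : (insert e {v | P v = some c} : Set V).ncard = num P c + 1 :=
    Set.ncard_insert_of_notMem hne (Set.toFinite _)
  refine ⟨?_, ?_, ?_, hcard _, fun d => ⟨hcard _, hcard _⟩⟩
  · rw [← hins]
    refine Set.ncard_le_ncard ?_ (Set.toFinite _)
    intro v hv
    have h1 := hQ v c hv
    by_cases hve : v = e
    · exact Or.inl hve
    · rw [put_ne _ hve] at h1
      exact Or.inr h1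
  · refine Set.ncard_le_ncard ?_ (Set.toFinite _)
    intro v hv
    have h1 := hQ v (!c) hv
    by_cases hve : v = e
    · subst hve
      rw [put_same] at h1
      exact absurd h1.symm (some_bne c)
    · rw [put_ne _ hve] at h1
      exact h1
  · rw [← hins]
    exact hcard _

end Pool.Agent.Helper2.GT
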