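import Pool.Agent.Helper76.GT.St

/-!
# Project GT, module HAB: a nonzero Lipschitz harmonic function as a limit
-/

set_option autoImplicit false

namespace Pool.Agent.Helper2.GT

open Pool.Agent.Helper76.GT Filter
open scoped Pointwise

universe u

section Inner

variable {H : Type u}

/-- finite support -/
private def FS (u : H → ℝ) : Prop := (Function.support u).Finite

private noncomputable def ip (u v : H → ℝ) : ℝ := ∑' x, u x * v x

private lemma FS.sub {u v : H → ℝ} (hu : FS u) (hv : FS v) : FS (fun x => u x - v x) :=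
  (hu.union hv).subset fun x hx => by
    by_contra h
    rw [Set.mem_union, not_or, Function.notMem_support, Function.notMem_support] at h
    exact hx (by beta_reduce; rw [h.1, h.2, sub_zero])

private lemma FS.sum {ι : Type*} (I : Finset ι) (u : ι → H → ℝ) (hu : ∀ i ∈ I, FS (u i)) :
    FS (fun x => ∑ i ∈ I, u i x) := by
  have h : (⋃ i ∈ I, Function.support (u i)).Finite := Set.Finite.biUnion I.finite_toSet fun i hi => hu i hi
  refine h.subset fun x hx => ?_
  by_contra hcon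
  apply hx
  apply Finset.sum_eq_zero
  intro i hi
  by_contra h0
  exact hcon (Set.mem_biUnion hi h0)

private lemma FS.mul {u : H → ℝ} (hu : FS u) (v : H → ℝ) : FS (fun x => u x * v x) :=
  Set.Finite.subset hu fun x hx => by
    intro h
    exact hx (by dsimp only; rw [h, zero_mul])

private lemma ip_sub (u u' v : H → ℝ) (hu : FS u) (hu' : FS u') :
    ip (fun x => u x - u' x) v = ip u v - ip u' v := by
  unfold ip
  rw [← (summable_of_hasFiniteSupport (hu.mul v)).tsum_sub (summable_of_hasFiniteSupport (hu'.mul v))]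
  congr 1
  funext x
  ring

private lemma ip_sum {ι : Type*} (I : Finset ι) (u : ι → H → ℝ) (v : H → ℝ) (hu : ∀ i ∈ I, FS (u i)) :
    ip (fun x => ∑ i ∈ I, u i x) v = ∑ i ∈ I, ip (u i) v := by
  unfold ip
  rw [← Summable.tsum_finsetSum (fun i hi => summable_of_hasFiniteSupport ((hu i hi).mul v))]
  congr 1
  funext x
  rw [Finset.sum_mul]

private lemma nrm2_eq (u : H → ℝ) : nrm2 u = ip u u := by
  unfold nrm2 ip
  congr 1
  funext x
  ring

private lemma nrm2_nonneg (u : H → ℝ) : 0 ≤ nrm2 u := tsum_nonneg fun _ => sq_nonneg _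

private lemma cs (u v : H → ℝ) (hu : FS u) (hv : FS v) : ip u v ^ 2 ≤ nrm2 u * nrm2 v := by
  classical
  set I : Finset H := hu.toFinset ∪ hv.toFinset with hI
  have hu0 : ∀ x ∉ I, u x = 0 := by
    intro x hx
    rw [hI, Finset.mem_union, not_or, Set.Finite.mem_toFinset] at hx
    exact Function.notMem_support.1 hx.1
  have hv0 : ∀ x ∉ I, v x = 0 := by
    intro x hx
    rw [hI, Finset.mem_union, not_or, Set.Finite.mem_toFinset, Set.Finite.mem_toFinset] at hx
    exact Function.notMem_support.1 hx.2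
  have h1 : ip u v = ∑ x ∈ I, u x * v x := tsum_eq_sum fun x hx => by rw [hu0 x hx, zero_mul]
  have h2 : nrm2 u = ∑ x ∈ I, u x ^ 2 := tsum_eq_sum fun x hx => by rw [hu0 x hx]; norm_num
  have h3 : nrm2 v = ∑ x ∈ I, v x ^ 2 := tsum_eq_sum fun x hx => by rw [hv0 x hx]; norm_num
  rw [h1, h2, h3]
  exact Finset.sum_mul_sq_le_sq_mul_sq I u v

end Inner

section G

variable {H : Type u} [Group H]

private def tr (g : H) (u : H → ℝ) : H → ℝ := fun x => u (g⁻¹ * x)

private lemma FS.tr {u : H → ℝ} (hu : FS u) (g : H) : FS (tr g u) := by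
  have : Function.support (GT.tr g u) = (fun x => g⁻¹ * x) ⁻¹' Function.support u := rfl
  unfold FS
  rw [this]
  exact Set.Finite.preimage (mul_right_injective g⁻¹).injOn hu

private lemma nrm2_tr (g : H) (u : H → ℝ) : nrm2 (tr g u) = nrm2 u := by
  unfold nrm2 tr
  exact (Equiv.mulLeft g⁻¹).tsum_eq (fun x => u x ^ 2)

/-- one function for a given `ε` -/
private lemma step (S : Finset H) (u : H → ℝ) (hu : FS u) (he : 0 < en S u) (δ : ℝ) (hδ : 0 ≤ δ)
    (hl : nrm2 (lap S u) ≤ δ ^ 2 * en S u) :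
    ∃ F : H → ℝ, F 1 = 0 ∧ (∀ g, ∀ s ∈ S, |F (g * s) - F g| ≤ 1) ∧
      (∀ g, |∑ s ∈ S, (F (g * s) - F g)| ≤ δ) ∧ ∃ s ∈ S, (Real.sqrt S.card)⁻¹ ≤ F s := by
  classical
  let D : H → H → ℝ := fun s x => u x - u (s⁻¹ * x)
  have hD : ∀ s, FS (D s) := fun s => hu.sub (hu.tr s)
  have hen : en S u = ∑ s ∈ S, nrm2 (D s) := rfl
  have hSne : S.Nonempty := by
    by_contra h
    rw [Finset.not_nonempty_iff_eq_empty] at h
    rw [hen, h, Finset.sum_empty] at he
    exact lt_irrefl _ he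
  obtain ⟨s0, hs0, hmax⟩ := S.exists_max_image (fun s => nrm2 (D s)) hSne
  have hcard : 0 < (S.card : ℝ) := by exact_mod_cast hSne.card_pos
  have hge : en S u ≤ S.card * nrm2 (D s0) := by
    rw [hen]
    refine (Finset.sum_le_sum fun s hs => hmax s hs).trans ?_
    rw [Finset.sum_const, nsmul_eq_mul]
  have hpos : 0 < nrm2 (D s0) := by
    by_contra h
    push Not at h
    have : (S.card : ℝ) * nrm2 (D s0) ≤ 0 := mul_nonpos_of_nonneg_of_nonpos hcard.le h
    linarith
  set q : ℝ := Real.sqrt (nrm2 (D s0)) * Real.sqrt (en S u) with hq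
  have hqpos : 0 < q := mul_pos (Real.sqrt_pos.2 hpos) (Real.sqrt_pos.2 he)
  have hq2 : q ^ 2 = nrm2 (D s0) * en S u := by
    rw [hq, mul_pow, Real.sq_sqrt hpos.le, Real.sq_sqrt he.le]
  have key : ∀ (w : H → ℝ) (β : ℝ), FS w → 0 ≤ β → nrm2 w ≤ β ^ 2 * en S u → |ip w (D s0) / q| ≤ β := by
    intro w β hw hβ hwb
    rw [abs_div, abs_of_pos hqpos, div_le_iff₀ hqpos]
    apply abs_le_of_sq_le_sq _ (by positivity)
    calc ip w (D s0) ^ 2 ≤ nrm2 w * nrm2 (D s0) := cs _ _ hw (hD s0)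
      _ ≤ (β ^ 2 * en S u) * nrm2 (D s0) := mul_le_mul_of_nonneg_right hwb hpos.le
      _ = (β * q) ^ 2 := by rw [mul_pow, hq2]; ring
  have hdiff : ∀ g s, ip (D (g * s)) (D s0) - ip (D g) (D s0) = ip (tr g (D s)) (D s0) := by
    intro g s
    rw [← ip_sub _ _ _ (hD _) (hD _)]
    congr 1
    funext x
    change (u x - u ((g * s)⁻¹ * x)) - (u x - u (g⁻¹ * x)) = u (g⁻¹ * x) - u (s⁻¹ * (g⁻¹ * x))
    rw [mul_inv_rev, mul_assoc]
    ring
  refine ⟨fun g => ip (D g) (D s0) / q, ?_, ?_, ?_, s0, hs0, ?_⟩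
  · have : D 1 = fun _ => 0 := by
      funext x
      change u x - u (1⁻¹ * x) = 0
      rw [inv_one, one_mul, sub_self]
    beta_reduce
    rw [this]
    unfold ip
    simp
  · intro g s hs
    rw [← sub_div, hdiff]
    apply key _ 1 ((hD s).tr g) zero_le_one
    rw [nrm2_tr, one_pow, one_mul, hen]
    exact Finset.single_le_sum (f := fun s => nrm2 (D s)) (fun s _ => nrm2_nonneg _) hs
  · intro g
    have h1 : ∑ s ∈ S, (ip (D (g * s)) (D s0) / q - ip (D g) (D s0) / q) = ip (tr g (lap S u)) (D s0) / q := by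
      have h2 : tr g (lap S u) = fun x => ∑ s ∈ S, tr g (D s) x := rfl
      rw [h2, ip_sum _ _ _ (fun s _ => (hD s).tr g), Finset.sum_div]
      apply Finset.sum_congr rfl
      intro s _
      rw [← sub_div, hdiff]
    rw [h1]
    have hlap : FS (lap S u) := FS.sum S D (fun s _ => hD s)
    apply key _ δ (hlap.tr g) hδ
    rw [nrm2_tr]
    exact hl
  · beta_reduce
    rw [← nrm2_eq]
    have h1 : 0 < Real.sqrt S.card := Real.sqrt_pos.2 hcard
    rw [inv_le_comm₀ h1 (div_pos hpos hqpos), inv_div, div_le_iff₀ hpos]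
    refine (le_abs_self q).trans (abs_le_of_sq_le_sq ?_ (by positivity))
    rw [hq2, mul_pow, Real.sq_sqrt hcard.le]
    nlinarith

private lemma ball_inv {S : Finset H} [DecidableEq H] (hS : Gen S) (n : ℕ) : ∀ x ∈ S ^ n, x⁻¹ ∈ S ^ n := by
  induction n with
  | zero =>
    intro x hx
    rw [pow_zero, Finset.mem_one] at hx ⊢
    rw [hx, inv_one]
  | succ n ih =>
    intro x hx
    rw [pow_succ, Finset.mem_mul] at hx
    obtain ⟨y, hy, z, hz, rfl⟩ := hx
    rw [pow_succ', mul_inv_rev]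
    exact Finset.mul_mem_mul (hS.inv z hz) (ih y hy)

private lemma ball_ex {S : Finset H} [DecidableEq H] (hS : Gen S) (x : H) : ∃ n, x ∈ S ^ n := by
  have hx : x ∈ Subgroup.closure (S : Set H) := by rw [hS.gen]; trivial
  induction hx using Subgroup.closure_induction with
  | mem y hy => exact ⟨1, by rw [pow_one]; exact hy⟩
  | one => exact ⟨0, by rw [pow_zero, Finset.mem_one]⟩
  | mul y z _ _ hy hz =>
    obtain ⟨a, ha⟩ := hy
    obtain ⟨b, hb⟩ := hz
    exact ⟨a + b, by rw [pow_add]; exact Finset.mul_mem_mul ha hb⟩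
  | inv y _ hy =>
    obtain ⟨a, ha⟩ := hy
    exact ⟨a, ball_inv hS a y ha⟩

private lemma bound {S : Finset H} [DecidableEq H] (F : H → ℝ) (h1 : F 1 = 0)
    (hL : ∀ g, ∀ s ∈ S, |F (g * s) - F g| ≤ 1) (n : ℕ) : ∀ x ∈ S ^ n, |F x| ≤ n := by
  induction n with
  | zero =>
    intro x hx
    rw [pow_zero, Finset.mem_one] at hx
    rw [hx, h1, abs_zero, Nat.cast_zero]
  | succ n ih =>
    intro x hx
    rw [pow_succ, Finset.mem_mul] at hx
    obtain ⟨y, hy, z, hz, rfl⟩ := hx
    have h2 := ih y hy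
    have h3 := hL y z hz
    have h4 : F (y * z) = (F (y * z) - F y) + F y := by ring
    rw [h4]
    push_cast
    exact (abs_add_le _ _).trans (by linarith)

end G

theorem pHAB (H : Type u) [Group H] [DecidableEq H] : HAB H := by
  intro S hS hyp
  have hstep : ∀ n : ℕ, ∃ F : H → ℝ, F 1 = 0 ∧ (∀ g, ∀ s ∈ S, |F (g * s) - F g| ≤ 1) ∧
      (∀ g, |∑ s ∈ S, (F (g * s) - F g)| ≤ 1 / ((n : ℝ) + 1)) ∧ ∃ s ∈ S, (Real.sqrt S.card)⁻¹ ≤ F s := by
    intro n
    obtain ⟨u, hu, he, hl⟩ := hyp ((1 / ((n : ℝ) + 1)) ^ 2) (by positivity)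
    exact step S u hu he _ (by positivity) hl
  choose m hm using ball_ex hS
  let A : ℕ → Set (H → ℝ) := fun n => {F | F 1 = 0 ∧ (∀ g, ∀ s ∈ S, |F (g * s) - F g| ≤ 1) ∧
      (∀ g, |∑ s ∈ S, (F (g * s) - F g)| ≤ 1 / ((n : ℝ) + 1)) ∧ ∃ s ∈ S, (Real.sqrt S.card)⁻¹ ≤ F s}
  have hclosed : ∀ n, IsClosed (A n) := by
    intro n
    have e : A n = {F | F 1 = 0} ∩ ((⋂ g, ⋂ s ∈ S, {F | |F (g * s) - F g| ≤ 1}) ∩
        ((⋂ g, {F | |∑ s ∈ S, (F (g * s) - F g)| ≤ 1 / ((n : ℝ) + 1)}) ∩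
          ⋃ s ∈ S, {F | (Real.sqrt S.card)⁻¹ ≤ F s})) := by
      ext F
      simp only [A, Set.mem_ofPred_eq, Set.mem_inter_iff, Set.mem_iInter, Set.mem_iUnion, exists_prop]
    rw [e]
    refine IsClosed.inter (isClosed_eq (continuous_apply _) continuous_const) (IsClosed.inter ?_
      (IsClosed.inter ?_ ?_))
    · refine isClosed_iInter fun g => isClosed_biInter fun s _ => isClosed_le ?_ continuous_const
      fun_prop
    · refine isClosed_iInter fun g => isClosed_le ?_ continuous_const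
      fun_prop
    · exact Set.Finite.isClosed_biUnion S.finite_toSet fun s _ =>
        isClosed_le continuous_const (continuous_apply _)
  have hsub : ∀ n, A n ⊆ Set.univ.pi (fun g => Set.Icc (-(m g : ℝ)) (m g)) := by
    rintro n F ⟨h1, h2, -, -⟩ g -
    exact abs_le.1 (bound F h1 h2 (m g) g (hm g))
  have hne : (⋂ n, A n).Nonempty := by
    apply IsCompact.nonempty_iInter_of_sequence_nonempty_isCompact_isClosed
    · rintro n F ⟨h1, h2, h3, h4⟩
      refine ⟨h1, h2, fun g => (h3 g).trans ?_, h4⟩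
      apply one_div_le_one_div_of_le (by positivity)
      push_cast
      linarith
    · exact fun n => hstep n
    · exact (isCompact_univ_pi fun g => isCompact_Icc).of_isClosed_subset (hclosed 0) (hsub 0)
    · exact hclosed
  obtain ⟨F, hF⟩ := hne
  rw [Set.mem_iInter] at hF
  obtain ⟨h1, h2, -, s, hs, hsF⟩ := hF 0
  refine ⟨F, ?_, ⟨1, fun x s hs => h2 x s hs⟩, h1, ?_⟩
  · intro x
    by_contra h0
    have hpos : 0 < |∑ s ∈ S, (F (x * s) - F x)| := abs_pos.2 h0
    obtain ⟨n, hn⟩ := exists_nat_one_div_lt hpos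
    exact absurd ((hF n).2.2.1 x) (not_le.2 hn)
  · rintro rfl
    have h5 : 0 < (Real.sqrt S.card)⁻¹ := inv_pos.2 (Real.sqrt_pos.2 (by
      exact_mod_cast Finset.card_pos.2 ⟨s, hs⟩))
    rw [Pi.zero_apply] at hsF
    exact absurd hsF (not_le.2 h5)

end Pool.Agent.Helper2.GT
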