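import Pool.Agent.Helper76.GT.St

/-!
# Project GT, module SEQ: a sequence of commutators near the identity
-/

set_option autoImplicit false

namespace Pool.Agent.Helper2.GT

open Pool.Agent.Helper76.GT Filter
open scoped Pointwise

universe u

variable {H : Type u} [Group H] [DecidableEq H]

private lemma ball_mono {S : Finset H} (hS : Gen S) {m n : ℕ} (h : m ≤ n) : S ^ m ⊆ S ^ n :=
  Finset.pow_subset_pow_right hS.one h

private lemma ball_inv {S : Finset H} (hS : Gen S) (n : ℕ) : ∀ x ∈ S ^ n, x⁻¹ ∈ S ^ n := by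
  induction n with
  | zero =>
    intro x hx
    rw [pow_zero, Finset.mem_one] at hx ⊢
    rw [hx, inv_one]
  | succ n ih =>
    intro x hx
    rw [pow_succ, Finset.mem_mul] at hx
    obtain ⟨y, hy, z, hz, rfl⟩ := hx
    rw [pow_succ', mul_inv_rev]
    exact Finset.mul_mem_mul (hS.inv z hz) (ih y hy)

private lemma ball_ex {S : Finset H} (hS : Gen S) (x : H) : ∃ n, x ∈ S ^ n := by
  have hx : x ∈ Subgroup.closure (S : Set H) := by rw [hS.gen]; trivial
  induction hx using Subgroup.closure_induction with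
  | mem y hy => exact ⟨1, by rw [pow_one]; exact hy⟩
  | one => exact ⟨0, by rw [pow_zero, Finset.mem_one]⟩
  | mul y z _ _ hy hz =>
    obtain ⟨a, ha⟩ := hy
    obtain ⟨b, hb⟩ := hz
    exact ⟨a + b, by rw [pow_add]; exact Finset.mul_mem_mul ha hb⟩
  | inv y _ hy =>
    obtain ⟨a, ha⟩ := hy
    exact ⟨a, ball_inv hS a y ha⟩

private lemma ball_ex_fin {S : Finset H} (hS : Gen S) (T : Finset H) : ∃ n, T ⊆ S ^ n := by
  choose f hf using ball_ex hS
  refine ⟨T.sup f, fun x hx => ball_mono hS (Finset.le_sup hx) (hf x)⟩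

omit [DecidableEq H] in
private lemma fin_closure (U : Set H) (x : H) (hx : x ∈ Subgroup.closure U) :
    ∃ T : Set H, T.Finite ∧ T ⊆ U ∧ x ∈ Subgroup.closure T := by
  induction hx using Subgroup.closure_induction with
  | mem y hy => exact ⟨{y}, Set.finite_singleton y, Set.singleton_subset_iff.2 hy,
      Subgroup.subset_closure rfl⟩
  | one => exact ⟨∅, Set.finite_empty, Set.empty_subset _, Subgroup.one_mem _⟩
  | mul y z _ _ hy hz =>
    obtain ⟨T1, f1, s1, m1⟩ := hy
    obtain ⟨T2, f2, s2, m2⟩ := hz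
    exact ⟨T1 ∪ T2, f1.union f2, Set.union_subset s1 s2, Subgroup.mul_mem _
      (Subgroup.closure_mono Set.subset_union_left m1) (Subgroup.closure_mono Set.subset_union_right m2)⟩
  | inv y _ hy =>
    obtain ⟨T1, f1, s1, m1⟩ := hy
    exact ⟨T1, f1, s1, Subgroup.inv_mem _ m1⟩

theorem pSEQ (H : Type u) [Group H] [DecidableEq H] : SEQ H := by
  intro S hS hinf hFF hFC ν hν ε hε
  set U : Set H := {g | ν g < ε} with hU
  -- `U` is infinite
  have hUinf : U.Infinite := by
    intro hfin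
    obtain ⟨F, hF⟩ := hν.cpt ε hε
    have : (Set.univ : Set H) ⊆ (F : Set H) * U := by
      intro g _
      obtain ⟨h, hh, hg⟩ := hF g
      exact ⟨h, hh, h⁻¹ * g, hg, mul_inv_cancel_left h g⟩
    exact Set.infinite_univ (((F.finite_toSet).mul hfin).subset this)
  set K := Subgroup.closure U with hK
  have hKinf : ¬ Finite K := by
    intro h
    exact hUinf ((Set.toFinite (K : Set H)).subset Subgroup.subset_closure)
  have hKind : K.index ≠ 0 := (hFF K).resolve_left hKinf
  have : Group.FG H := Group.fg_def.2 ⟨S, hS.gen⟩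
  have : K.FiniteIndex := ⟨hKind⟩
  have hKfg : K.FG := (Group.fg_iff_subgroup_fg K).1 inferInstance
  obtain ⟨G0, hG0⟩ := hKfg
  -- finitely many elements of `U` generate `K`
  have hT : ∃ T : Set H, T.Finite ∧ T ⊆ U ∧ Subgroup.closure T = K := by
    have h1 : ∀ x : H, x ∈ K → ∃ T : Set H, T.Finite ∧ T ⊆ U ∧ x ∈ Subgroup.closure T :=
      fun x hx => fin_closure U x hx
    choose! T hT1 hT2 hT3 using h1
    have hG0K : ∀ x ∈ G0, x ∈ K := fun x hx => by
      rw [← hG0]; exact Subgroup.subset_closure hx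
    refine ⟨⋃ x ∈ G0, T x, ?_, ?_, ?_⟩
    · exact Set.Finite.biUnion G0.finite_toSet fun x hx => hT1 x (hG0K x hx)
    · exact Set.iUnion₂_subset fun x hx => hT2 x (hG0K x hx)
    · apply le_antisymm
      · rw [hK]
        exact Subgroup.closure_mono (Set.iUnion₂_subset fun x hx => hT2 x (hG0K x hx))
      · rw [← hG0, Subgroup.closure_le]
        intro x hx
        exact Subgroup.closure_mono (Set.subset_biUnion_of_mem (u := fun x => T x) hx) (hT3 x (hG0K x hx))
  obtain ⟨T, hTf, hTU, hTK⟩ := hT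
  -- an element of `U` different from `1`
  obtain ⟨g0, hg0U, hg01⟩ : ∃ g0 ∈ U, g0 ≠ 1 := by
    by_contra hcon
    push Not at hcon
    exact hUinf ((Set.finite_singleton (1 : H)).subset fun x hx => hcon x hx)
  obtain ⟨c, hc⟩ := ball_ex_fin hS (insert g0 hTf.toFinset)
  -- noncommuting elements
  have hnc : ∀ g : {g : H // g ≠ 1}, ∃ t ∈ T, (g : H) * t * (g : H)⁻¹ * t⁻¹ ≠ 1 := by
    rintro ⟨g, hg⟩
    by_contra hcon
    push Not at hcon
    have h1 : K ≤ Subgroup.centralizer ({g} : Set H) := by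
      rw [← hTK, Subgroup.closure_le]
      intro t ht
      rw [SetLike.mem_coe, Subgroup.mem_centralizer_singleton_iff]
      have h2 := hcon t ht
      dsimp only at h2
      rw [mul_inv_eq_one, mul_inv_eq_iff_eq_mul] at h2
      exact h2.symm
    have := hFC g hg
    exact hKinf (Finite.of_injective (Subgroup.inclusion h1) (Subgroup.inclusion_injective h1))
  choose t htT htn using hnc
  obtain ⟨G, hG0', hGs'⟩ : ∃ G : ℕ → {g : H // g ≠ 1}, G 0 = ⟨g0, hg01⟩ ∧
      ∀ j, G (j + 1) = ⟨(G j : H) * t (G j) * (G j : H)⁻¹ * (t (G j))⁻¹, htn (G j)⟩ :=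
    ⟨fun n => (fun g : {g : H // g ≠ 1} =>
      (⟨(g : H) * t g * (g : H)⁻¹ * (t g)⁻¹, htn g⟩ : {g : H // g ≠ 1}))^[n] ⟨g0, hg01⟩, rfl,
      fun j => Function.iterate_succ_apply' _ j _⟩
  have hGs : ∀ j, (G (j + 1) : H) = (G j : H) * t (G j) * (G j : H)⁻¹ * (t (G j))⁻¹ := fun j => by
    rw [hGs']
  have hball : ∀ j, (G j : H) ∈ S ^ (c * (3 * 2 ^ j - 2)) := by
    intro j
    induction j with
    | zero =>
      have h1 : c * (3 * 2 ^ 0 - 2) = c := by norm_num
      rw [h1, hG0']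
      exact hc (Finset.mem_insert_self _ _)
    | succ j ih =>
      have h0 : 1 ≤ 2 ^ j := Nat.one_le_two_pow
      have h1 : c * (3 * 2 ^ (j + 1) - 2) = c * (3 * 2 ^ j - 2) + c + c * (3 * 2 ^ j - 2) + c := by
        have h2 : 3 * 2 ^ (j + 1) - 2 = (3 * 2 ^ j - 2) + 1 + (3 * 2 ^ j - 2) + 1 := by
          rw [pow_succ]; omega
        rw [h2]; ring
      have htc : t (G j) ∈ S ^ c := hc (Finset.mem_insert_of_mem (hTf.mem_toFinset.2 (htT (G j))))
      rw [h1, pow_add, pow_add, pow_add, hGs]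
      exact Finset.mul_mem_mul (Finset.mul_mem_mul (Finset.mul_mem_mul ih htc) (ball_inv hS _ _ ih))
        (ball_inv hS _ _ htc)
  refine ⟨3 * c, fun j => (G j : H), by beta_reduce; rw [hG0']; exact hg0U, fun j => ⟨(G j).2, ?_, ?_⟩⟩
  · beta_reduce
    rw [hGs]
    have h1 := hν.comm (G j : H) (t (G j))
    have h2 : ν (t (G j)) < ε := hTU (htT (G j))
    have h3 := hν.nonneg (G j : H)
    nlinarith
  · apply ball_mono hS _ (hball j)
    calc c * (3 * 2 ^ j - 2) ≤ c * (3 * 2 ^ j) := Nat.mul_le_mul_left _ (Nat.sub_le _ _)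
      _ = 3 * c * 2 ^ j := by ring

end Pool.Agent.Helper2.GT
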