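import Pool.Agent.Helper79.GT.St2

/-! Project GT, module WBD -/

set_option autoImplicit false

namespace Pool.Agent.Helper2.GT

open Pool.Agent.Helper19.SK Pool.Agent.Helper79.GS Pool.Agent.Helper79.GT

/-- module WBD -/
theorem hWBD (hWPR : StWPR) : Pool.Agent.Helper79.GT.StWBD := by
  intro P A D pt g N M B R d₀ hko a hbd k x hx
  rcases x with a' | c
  · exact (hbd k a'.1 ((hWPR P A D pt g N M B d₀ hko a k).1 a' hx)).trans (Nat.le_succ R)
  · obtain ⟨k', a', hk, h⟩ := (hWPR P A D pt g N M B d₀ hko a k).2 c hx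
    have h1 := hbd k' a'.1 ((hWPR P A D pt g N M B d₀ hko a k').1 a' h)
    omega

end Pool.Agent.Helper2.GT
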