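import Pool.Agent.Helper79.GT.St2

/-! Project GT, module WDF -/

set_option autoImplicit false

namespace Pool.Agent.Helper2.GT

open Pool.Agent.Helper19.SK Pool.Agent.Helper79.GS Pool.Agent.Helper79.GT

private lemma wdf_aux {P : Type} (A : Gm P) (D : Bool → Bool → P → P → Prop) (pt : P → ℤ) (g N M B : ℕ)
    (d₀ : ℤ) (hko : KoLaw A pt g N) (a : P × Fin M) (k : ℕ) (z : (P × Fin M) ⊕ Bool)
    (h : Rch (wA A D g M B d₀) (Sum.inl a) k z) : ∀ a' : P × Fin M, z = Sum.inl a' →
      |4 * ((a'.2.val : ℤ) - a.2.val) - (pt a'.1 - pt a.1)| ≤ 6 * k * N := by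
  induction h with
  | refl =>
    intro a' ha'
    have : a = a' := Sum.inl.inj ha'
    subst this
    simp
  | rev k c x y hx h1 h2 ih =>
    intro a' ha'
    subst ha'
    rcases x with b | c'
    · have h3 : und A D c b.1 a'.1 ∧ (a'.2.val : ℤ) = b.2.val + A.cp c b.1 a'.1 := h1
      have h4 : und A D (!c) a'.1 b.1 ∧ (b.2.val : ℤ) = a'.2.val + A.cp (!c) a'.1 b.1 := h2
      have h5 := ih b rfl
      have hm1 : A.mv c b.1 a'.1 := h3.1.1
      have hm2 : A.mv (!c) a'.1 b.1 := h4.1.1
      have key : 4 * ((a'.2.val : ℤ) - a.2.val) - (pt a'.1 - pt a.1) =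
          4 * ((b.2.val : ℤ) - a.2.val) - (pt b.1 - pt a.1) := by
        cases c with
        | true =>
          obtain ⟨e1, e2, -, -⟩ := hko.ko _ _ hm1 hm2
          have e3 := h3.2
          rw [e2] at e3
          rw [e1, e3]
          ring
        | false =>
          obtain ⟨e1, e2, -, -⟩ := hko.ko _ _ hm2 hm1
          have e3 := h4.2
          rw [Bool.not_false] at e3
          rw [e2] at e3
          rw [e1, e3]
          ring
      rw [key]
      exact h5
    · exact absurd h1 (fun h => h)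
  | irr k c x y hx h1 h2 ih =>
    intro a' ha'
    subst ha'
    rcases x with b | c'
    · have h3 : und A D c b.1 a'.1 ∧ (a'.2.val : ℤ) = b.2.val + A.cp c b.1 a'.1 := h1
      have h5 := ih b rfl
      have h6 := hko.bc c _ _ h3.1.1
      have h7 := hko.bp a'.1
      have h8 := hko.bp b.1
      have e3 := h3.2
      rw [abs_le] at h5 h6 h7 h8 ⊢
      push_cast
      have e4 : (6 : ℤ) * (k + 1) * N = 6 * k * N + 6 * N := by ring
      rw [e4]
      constructor <;> [linarith [h5.1, h5.2, h6.1, h6.2, h7.1, h7.2, h8.1, h8.2];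
        linarith [h5.1, h5.2, h6.1, h6.2, h7.1, h7.2, h8.1, h8.2]]
    · exact absurd h1 (fun h => h)

/-- module WDF -/
theorem hWDF : Pool.Agent.Helper79.GT.StWDF := by
  intro P A D pt g N M B d₀ hko a a' k h
  exact wdf_aux A D pt g N M B d₀ hko a k _ h a' rfl

end Pool.Agent.Helper2.GT
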